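import Pool.Agent.Run7.h527.TP.Cb
import Pool.Agent.Results.MP_3e6494_nt.TotientOrbits

/-!
# Large central values in every coset for ALL primes near aliquot sums, cototients and arithmetic derivatives

Let `g(m)` be the sum of the proper divisors of `m`, the cototient `m - φ(m)`, the arithmetic derivative `m'` (with `p' = 1`
for primes and Leibniz' rule), or any positive combination `α m + β f(m)` with `f = σ`, `φ` or the arithmetic derivative. Let
`G` have steps bounded below by a positive constant and growth at most `v^d`. Let `2 / 3 < β ≤ 1` and `c, ε > 0`. There is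
`η > 0`, which does not depend on `g`, `G`, such that for `κ ≥ 0` and `d (1 - η) + κ < τ ≤ 1` the following is true. For all
`m ≤ N` which have two prime factors `p₁ ≠ p₂`, not dividing `m / (p₁ p₂) ≥ 2`, with `p₁ p₂ ≥ m^τ`, but at most `N^(1 - δ)` of
them, for EVERY prime `q` with `|q - G (g m)| ≤ g(m)^κ` every coset of every subgroup with at least `c q ^ β` elements of the
group of the Dirichlet characters modulo `q` contains a character with a large central value.

Proof. Write `m = k p₁ p₂`. Then `g(m) = a p₁ p₂ + b (p₁ + p₂) + e` with integers `a ≠ 0`, `b`, `e` which depend on `k` only,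
and `(a p₁ + b) (a p₂ + b) = a g(m) + b² - a e`. So for given `k ≤ N^(1 - τ)` every value is taken for at most `N^ε` pairs
`p₁`, `p₂` (the tool `Run7/h527/TP`), and the starting theorem `AlmostAllPrimes` of this page bounds the number of the
exceptional primes by `Q^(1 - η)`. The starting files `MultiplicativeValues` and `TotientOrbits` treat multiplicative functions
and the iterates of Euler's function.
-/

set_option autoImplicit false

namespace Pool.Agent.Results.MP_3e6494_nt.AliquotSums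

open Pool.Agent.N733.TG (Expanding expanding_pow)
open Pool.Agent.Results.MP_3e6494_nt.TotientOrbits (LargeValues)
open Run7.h527.TP (Bil Two good_nat aliquot cototient deriv sig comb)

/-- **Large central values in every coset for the primes near the values of functions which are bilinear in two large
primes.** For all `2 / 3 < β ≤ 1` and `c, ε > 0` there is an `η` with `0 < η ≤ 1` such that for all `g` of the class `Bil`, all
expanding `G` of order `d` and all `κ ≥ 0` with `d (1 - η) + κ < τ ≤ 1` there is `δ > 0` such that for all large `N`, for all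
`m ≤ N` with `Two τ m` but at most `N^(1 - δ)`, for EVERY prime `q` with `|q - G (g m)| ≤ g(m)^κ` every coset `χ₀ H` of every
subgroup `H` with at least `c q ^ β` elements of the group of the Dirichlet characters modulo `q` contains a character `χ` with
`|L(χ, 1/2)| ≥ exp ((√(3 β - 2) - ε) √(log q logloglog q / loglog q))`. The sum of the proper divisors, the cototient, the
arithmetic derivative and their positive combinations with the identity are in the class `Bil`. -/
theorem result :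
    (∀ β : ℝ, 2 / 3 < β → β ≤ 1 → ∀ c : ℝ, 0 < c → ∀ ε : ℝ, 0 < ε → ∃ η : ℝ, 0 < η ∧ η ≤ 1 ∧
      ∀ g : ℕ → ℕ, Bil g → ∀ (G : ℕ → ℝ) (d : ℝ), Expanding G d → ∀ κ τ : ℝ, 0 ≤ κ → d * (1 - η) + κ < τ → τ ≤ 1 →
      ∃ δ : ℝ, 0 < δ ∧ ∃ N₀ : ℕ, ∀ N : ℕ, N₀ ≤ N →
      ({m : ℕ | 1 ≤ m ∧ m ≤ N ∧ Two τ m ∧ ¬ ∀ q : ℕ, q.Prime → |(q : ℝ) - G (g m)| ≤ (g m : ℝ) ^ κ →
        LargeValues β c ε q}.ncard : ℝ) ≤ (N : ℝ) ^ (1 - δ)) ∧
    (Bil aliquot ∧ Bil cototient ∧ Bil deriv ∧
      (∀ α β : ℤ, (∀ m : ℕ, 2 ≤ m → 0 < α * m + β * sig m) → Bil (comb α β sig)) ∧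
      (∀ α β : ℤ, (∀ m : ℕ, 2 ≤ m → 0 < α * m + β * Nat.totient m) → Bil (comb α β Nat.totient)) ∧
      ∀ α β : ℤ, (∀ m : ℕ, 2 ≤ m → 0 < α * m + β * deriv m) → Bil (comb α β deriv)) ∧
    ∀ α d : ℝ, 0 < α → 1 ≤ d → Expanding (fun v => α * (v : ℝ) ^ d) d := by
  refine ⟨fun β hβ hβ1 c hc ε hε => ?_, Run7.h527.TP.examples, fun α d hα hd => expanding_pow hα hd⟩
  obtain ⟨η, hη, Q₀, hQ⟩ := AlmostAllPrimes.result β hβ hβ1 c hc ε hε
  refine ⟨min η 1, lt_min hη one_pos, min_le_right _ _, fun g hg G d hG κ τ hκ h1 hτ => ?_⟩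
  obtain ⟨δ, hδ, N₀, hN₀⟩ := good_nat Nat.Prime (LargeValues β c ε) hg hG (s := 1 - min η 1) (κ := κ) (τ := τ)
    (sub_nonneg.2 (min_le_right _ _)) hκ h1 hτ (fun ε' hε' => by
      refine ⟨(Q₀ : ℝ) + 1, fun X hX => ?_⟩
      have hX1 : (1 : ℝ) ≤ X := by exact_mod_cast hX
      have hp1 : 1 ≤ (X : ℝ) ^ (1 - min η 1 + ε') := Real.one_le_rpow hX1 (by
        have := min_le_right η 1
        linarith)
      have hsub : {t : ℕ | 1 ≤ t ∧ t ≤ X ∧ t.Prime ∧ ¬ LargeValues β c ε t} ⊆ Set.Icc 1 X :=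
        fun t ht => ⟨ht.1, ht.2.1⟩
      rcases Nat.lt_or_ge X Q₀ with hlt | hge
      · have h3 := Set.ncard_le_ncard hsub (Set.finite_Icc 1 X)
        rw [Set.ncard_eq_toFinset_card' (Set.Icc 1 X)] at h3
        simp only [Set.toFinset_Icc, Nat.card_Icc, add_tsub_cancel_right] at h3
        have h4 : ({t : ℕ | 1 ≤ t ∧ t ≤ X ∧ t.Prime ∧ ¬ LargeValues β c ε t}.ncard : ℝ) ≤ Q₀ := by
          exact_mod_cast h3.trans hlt.le
        calc _ ≤ (Q₀ : ℝ) := h4
          _ ≤ ((Q₀ : ℝ) + 1) * 1 := by linarith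
          _ ≤ _ := mul_le_mul_of_nonneg_left hp1 (by positivity)
      · obtain ⟨Bad, hB1, hB2⟩ := hQ X hge
        have hsub2 : {t : ℕ | 1 ≤ t ∧ t ≤ X ∧ t.Prime ∧ ¬ LargeValues β c ε t} ⊆ (Bad : Set ℕ) := by
          rintro q ⟨_, h5, h3, h4⟩
          by_contra hcon
          exact h4 fun hne H χ₀ hH => @hB2 q hne h3 h5 hcon H χ₀ hH
        have h3 := Set.ncard_le_ncard hsub2 (Finset.finite_toSet _)
        rw [Set.ncard_coe_finset] at h3
        calc _ ≤ (Bad.card : ℝ) := by exact_mod_cast h3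
          _ ≤ (X : ℝ) ^ (1 - η) := hB1
          _ ≤ (X : ℝ) ^ (1 - min η 1 + ε') := Real.rpow_le_rpow_of_exponent_le hX1 (by
              have := min_le_left η 1
              linarith)
          _ = 1 * (X : ℝ) ^ (1 - min η 1 + ε') := (one_mul _).symm
          _ ≤ _ := mul_le_mul_of_nonneg_right (by
              have : (0 : ℝ) ≤ Q₀ := Nat.cast_nonneg _
              linarith) (by positivity))
  refine ⟨δ, hδ, N₀, fun N hN => le_trans (le_of_eq ?_) (hN₀ N hN)⟩
  congr 2
  ext m
  simp only [Set.mem_ofPred_eq]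
  have : (∀ q : ℕ, q.Prime → |(q : ℝ) - G (g m)| ≤ (g m : ℝ) ^ κ → LargeValues β c ε q) ↔
      ∀ q : ℕ, 1 ≤ q → q.Prime → |(q : ℝ) - G (g m)| ≤ (g m : ℝ) ^ κ → LargeValues β c ε q :=
    ⟨fun h q _ => h q, fun h q hq => h q hq.one_lt.le hq⟩
  rw [this]

end Pool.Agent.Results.MP_3e6494_nt.AliquotSums
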