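import Pool.Agent.Run7.h702.CT.C
import Pool.Agent.Results.MP_3e6494_nt.TotientOrbits

/-!
# Large central values in every coset for all primes near ALL the terms of almost every Collatz trajectory

Let `v` run through the terms of the trajectory of `m` under the Collatz map (`n / 2`, `3 n + 1`) before its first value smaller
than `Y`. Let `2 / 3 < β ≤ 1` and `c, ε > 0`. There is `η > 0` such that for all `α > 0`, `d ≥ 1`, `κ ≥ 0` with
`d (1 - η) + κ < 1` there is `ρ > 0` with: for every `B` there is `K` such that for all `Y ≥ 2` and `N`, for all `m ≤ N` but at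
most `K N / (log Y) ^ B`, the trajectory has a value smaller than `Y`, and for EVERY term `v` before it, ALL `1 ≤ a ≤ v ^ ρ` and
EVERY prime `q` with `|q - a α v ^ d| ≤ v ^ (κ + ρ)` every coset of every subgroup with at least `c q ^ β` elements of the group
of the Dirichlet characters modulo `q` contains a character with a large central value. More generally `G v` takes the place of
`α v ^ d`, where `G` is any function with steps bounded below by a positive constant and growth at most `v ^ d`. So if `F`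
tends to infinity, however slowly, then for almost every `m` this holds for all the terms of the trajectory of `m` down to its
first value smaller than `F m`.

The terms of the trajectory of a random integer are not distributed like random integers of their size. The tool is the
avoidance of thin sets by all the terms of almost every trajectory (starting theorem; Tao's theorem in natural density), in the
form of `Run7/h702/CT` (multiples and windows).
-/

set_option autoImplicit false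

namespace Pool.Agent.Results.MP_3e6494_nt.CollatzTerms

open Finset Filter Topology
open Pool.Agent.Results.MP_3e6494_nt.TotientOrbits (LargeValues)

/-- The Collatz map. -/
def collatz (n : ℕ) : ℕ := if n % 2 = 0 then n / 2 else 3 * n + 1

/-- The trajectory of `m` takes a value smaller than `Y`, and EVERY term `v` before it has the property `P`. -/
def AllTerms (P : ℕ → Prop) (Y : ℝ) (m : ℕ) : Prop :=
  ∃ k : ℕ, ((collatz^[k] m : ℕ) : ℝ) < Y ∧ ∀ j < k, P (collatz^[j] m)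

/-- `P` holds for all the terms of almost every trajectory: (1) for every `B` there is `K` such that `AllTerms P Y m` holds, for
all `Y ≥ 2` and `N`, for all the `m ∈ [1, N]` but at most `K N / (log Y)^B`; (2) for every function `F` which tends to infinity
the density of the `m` with `AllTerms P (F m) m` is `1`. -/
def OnAllTerms (P : ℕ → Prop) : Prop :=
  (∀ B : ℕ, ∃ K : ℝ, ∀ Y : ℝ, 2 ≤ Y → ∀ N : ℕ,
    (Set.ncard {m : ℕ | 1 ≤ m ∧ m ≤ N ∧ ¬ AllTerms P Y m} : ℝ) ≤ K * N / Real.log Y ^ B) ∧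
  ∀ F : ℕ → ℝ, Tendsto F atTop atTop →
    Tendsto (fun N : ℕ => (Set.ncard {m : ℕ | 1 ≤ m ∧ m ≤ N ∧ AllTerms P (F m) m} : ℝ) / N) atTop (𝓝 1)

/-- The steps of `G` are at least a positive constant, and `G` grows at most like `v ^ d`, `d ≥ 1`. -/
structure Expanding (G : ℕ → ℝ) (d : ℝ) : Prop where
  one_le : 1 ≤ d
  step : ∃ a : ℝ, 0 < a ∧ ∀ v : ℕ, 1 ≤ v → a ≤ G (v + 1) - G v
  growth : ∃ C : ℝ, ∀ v : ℕ, 1 ≤ v → G v ≤ C * (v : ℝ) ^ d

/-- `x` is near one of the small multiples of `G v`. -/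
def Near (G : ℕ → ℝ) (κ η : ℝ) (v : ℕ) (x : ℝ) : Prop :=
  ∃ a : ℕ, 1 ≤ a ∧ (a : ℝ) ≤ (v : ℝ) ^ η ∧ |x - a * G v| ≤ (v : ℝ) ^ (κ + η)

theorem ex_of {G : ℕ → ℝ} {d : ℝ} (h : Expanding G d) : Pool.Agent.N733.TG.Expanding G d := ⟨h.one_le, h.step, h.growth⟩

theorem ex_pow {a d : ℝ} (ha : 0 < a) (hd : 1 ≤ d) : Expanding (fun v => a * (v : ℝ) ^ d) d := by
  obtain ⟨h1, h2, h3⟩ := Pool.Agent.N733.TG.expanding_pow ha hd
  exact ⟨h1, h2, h3⟩

theorem on_of {P : ℕ → Prop} (h : Run7.h702.CT.OnAllTerms P) : OnAllTerms P := h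

/-- the number of the primes without large values -/
theorem bad_count {β c ε η : ℝ} {Q₀ : ℕ}
    (hQ : ∀ X : ℕ, Q₀ ≤ X → ∃ Bad : Finset ℕ, (Bad.card : ℝ) ≤ (X : ℝ) ^ (1 - η) ∧
      ∀ q : ℕ, q.Prime → q ≤ X → q ∉ Bad → LargeValues β c ε q) :
    ∀ ε' : ℝ, 0 < ε' → ∃ C : ℝ, ∀ X : ℕ, 1 ≤ X →
      ({t : ℕ | 1 ≤ t ∧ t ≤ X ∧ t.Prime ∧ ¬ LargeValues β c ε t}.ncard : ℝ) ≤ C * (X : ℝ) ^ (1 - min η 1 + ε') := by
  intro ε' hε'
  refine ⟨(Q₀ : ℝ) + 1, fun X hX => ?_⟩
  have hX1 : (1 : ℝ) ≤ X := by exact_mod_cast hX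
  have hp1 : 1 ≤ (X : ℝ) ^ (1 - min η 1 + ε') := Real.one_le_rpow hX1 (by
    have := min_le_right η 1
    linarith)
  have hsub : {t : ℕ | 1 ≤ t ∧ t ≤ X ∧ t.Prime ∧ ¬ LargeValues β c ε t} ⊆ Set.Icc 1 X :=
    fun t ht => ⟨ht.1, ht.2.1⟩
  rcases Nat.lt_or_ge X Q₀ with hlt | hge
  · have h3 := Set.ncard_le_ncard hsub (Set.finite_Icc 1 X)
    rw [Set.ncard_eq_toFinset_card' (Set.Icc 1 X)] at h3
    simp only [Set.toFinset_Icc, Nat.card_Icc, add_tsub_cancel_right] at h3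
    have h4 : ({t : ℕ | 1 ≤ t ∧ t ≤ X ∧ t.Prime ∧ ¬ LargeValues β c ε t}.ncard : ℝ) ≤ Q₀ := by
      exact_mod_cast h3.trans hlt.le
    calc _ ≤ (Q₀ : ℝ) := h4
      _ ≤ ((Q₀ : ℝ) + 1) * 1 := by linarith
      _ ≤ _ := mul_le_mul_of_nonneg_left hp1 (by positivity)
  · obtain ⟨Bad, hB1, hB2⟩ := hQ X hge
    have hsub2 : {t : ℕ | 1 ≤ t ∧ t ≤ X ∧ t.Prime ∧ ¬ LargeValues β c ε t} ⊆ (Bad : Set ℕ) := by
      rintro q ⟨_, h5, h3, h4⟩
      by_contra hcon
      exact h4 (hB2 q h3 h5 hcon)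
    have h3 := Set.ncard_le_ncard hsub2 (Finset.finite_toSet _)
    rw [Set.ncard_coe_finset] at h3
    calc _ ≤ (Bad.card : ℝ) := by exact_mod_cast h3
      _ ≤ (X : ℝ) ^ (1 - η) := hB1
      _ ≤ (X : ℝ) ^ (1 - min η 1 + ε') := Real.rpow_le_rpow_of_exponent_le hX1 (by
          have := min_le_left η 1
          linarith)
      _ ≤ _ := le_mul_of_one_le_left (by positivity) (by
          have : (0 : ℝ) ≤ Q₀ := Nat.cast_nonneg _
          linarith)

/-- **Large central values in every coset for the primes near all the terms of almost every Collatz trajectory.** -/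
theorem result :
    (∀ β : ℝ, 2 / 3 < β → β ≤ 1 → ∀ c : ℝ, 0 < c → ∀ ε : ℝ, 0 < ε → ∃ η : ℝ, 0 < η ∧ η ≤ 1 ∧
      ∀ (G : ℕ → ℝ) (d : ℝ), Expanding G d → ∀ κ : ℝ, 0 ≤ κ → d * (1 - η) + κ < 1 → ∃ ρ : ℝ, 0 < ρ ∧
        OnAllTerms (fun v => ∀ q : ℕ, q.Prime → Near G κ ρ v (q : ℝ) → LargeValues β c ε q)) ∧
    ∀ α d : ℝ, 0 < α → 1 ≤ d → Expanding (fun v => α * (v : ℝ) ^ d) d := by
  refine ⟨fun β hβ hβ1 c hc ε hε => ?_, fun α d hα hd => ex_pow hα hd⟩
  obtain ⟨η, hη, Q₀, hQ⟩ := AlmostAllPrimes.result β hβ hβ1 c hc ε hε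
  refine ⟨min η 1, lt_min hη one_pos, min_le_right _ _, fun G d hG κ hκ h1 => ?_⟩
  obtain ⟨ρ, hρ, h2⟩ := Run7.h702.CT.good_nat Nat.Prime (LargeValues β c ε) (ex_of hG) (s := 1 - min η 1) (κ := κ)
    (sub_nonneg.2 (min_le_right _ _)) hκ h1 (bad_count (Q₀ := Q₀) (fun X hX => by
      obtain ⟨Bad, hB1, hB2⟩ := hQ X hX
      exact ⟨Bad, hB1, fun q h3 h5 hcon hne H χ₀ hH => @hB2 q hne h3 h5 hcon H χ₀ hH⟩))
  refine ⟨ρ, hρ, on_of (h2.imp (fun v hv q hq hN => ?_))⟩
  obtain ⟨a, ha1, ha2, ha3⟩ := hN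
  exact hv a ha1 ha2 q hq.one_le hq ha3

end Pool.Agent.Results.MP_3e6494_nt.CollatzTerms
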