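import Pool.Agent.N251.LF.Win
import Pool.Agent.Results.MP_3e6494_nt.AlmostAllPrimes

/-!
# Large central values in every coset for all primes near the values of generic linear forms

Let `v_i`, `i` in a countable set, be vectors in `ℝ^k` such that for every `ε > 0` at most `C X ^ (τ + ε)` of them have norm at
most `X`; for instance all `(b_1^(n_1), …, b_k^(n_k))` with `b_j > 1` (`τ = 0`), all `(1, n, …, n^d)` (`τ = 1 / d`), or all
`(n_1^(a_1), …, n_k^(a_k))` (`τ` the sum of the `1 / a_j`). Let `2 / 3 < β ≤ 1` and `c, ε > 0`. There is an `η > 0` such that for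
all such families, for all `0 ≤ θ < 1` and all `α` in `ℝ^k` outside a set of Hausdorff dimension at most
`k - 1 + (1 - η + τ) / (1 - θ)`, for all `w` and all but finitely many `i`, for EVERY prime `q` with
`|q - (α_1 v_(i,1) + … + α_k v_(i,k))| ≤ w |v_i|^θ`, every coset of every subgroup with at least `c q ^ β` elements of the group of
the Dirichlet characters modulo `q` contains a character with a large central value. For `θ < η - τ` the dimension is less than
`k`, and the statement holds for almost all `α`. (The starting files treat the primes near `λ P (n_1, …, n_k)` for one number `λ`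
(`MultiplicativeValues`), near `α + G n` (`AdditiveValues`), and near functions of the denominators of good approximations
(`SimultaneousApproximations`); here the coefficients of the linear form vary independently.)

Proof. For all primes `q ≤ Q` with at most `Q ^ (1 - η)` exceptions all cosets contain such characters (the starting theorem
`AlmostAllPrimes` of this problem). The `α` for which an exceptional prime is in the window of `v_i` form a union of slabs; the
slabs are covered by few small cubes (`Pool.Agent.N251.LF.Win`).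
-/

set_option autoImplicit false

namespace Pool.Agent.Results.MP_3e6494_nt.GenericLinearForms

open Pool.Agent.N251.LF (Fam Sq linear_good_nat examples)

/-- every coset of every subgroup with at least `c q ^ β` elements of the group of the Dirichlet characters modulo `q` has a
member with a large central value (with the constant `√(3 β - 2) - ε`) -/
def LargeValues (β c ε : ℝ) (q : ℕ) : Prop :=
  ∀ _ : NeZero q, ∀ (H : Subgroup (DirichletCharacter ℂ q)) (χ₀ : DirichletCharacter ℂ q),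
    c * (q : ℝ) ^ β ≤ (Nat.card H : ℝ) →
    ∃ ψ ∈ H, Real.exp ((Real.sqrt (3 * β - 2) - ε) *
      Real.sqrt (Real.log q * Real.log (Real.log (Real.log q)) / Real.log (Real.log q))) ≤
        ‖DirichletCharacter.LFunction (χ₀ * ψ) (1 / 2)‖

/-- the exceptional primes have exponent `1 - η` -/
lemma count {β : ℝ} (hβ : 2 / 3 < β) (hβ1 : β ≤ 1) {c : ℝ} (hc : 0 < c) {ε : ℝ} (hε : 0 < ε) :
    ∃ η : ℝ, 0 < η ∧ η ≤ 1 ∧ ∀ ε' : ℝ, 0 < ε' → ∃ C : ℝ, ∀ X : ℕ, 1 ≤ X →
      (({t : ℕ | 1 ≤ t ∧ t ≤ X ∧ t.Prime ∧ ¬ LargeValues β c ε t}.ncard : ℕ) : ℝ) ≤ C * (X : ℝ) ^ (1 - η + ε') := by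
  obtain ⟨η, hη, Q₀, hQ⟩ := AlmostAllPrimes.result β hβ hβ1 c hc ε hε
  refine ⟨min η 1, lt_min hη one_pos, min_le_right _ _, fun ε' hε' => ⟨(Q₀ : ℝ) + 1, fun X hX => ?_⟩⟩
  have hX1 : (1 : ℝ) ≤ X := by exact_mod_cast hX
  have hp1 : 1 ≤ (X : ℝ) ^ (1 - min η 1 + ε') := Real.one_le_rpow hX1 (by
    have := min_le_right η 1
    linarith)
  have hsub : {t : ℕ | 1 ≤ t ∧ t ≤ X ∧ t.Prime ∧ ¬ LargeValues β c ε t} ⊆ Set.Icc 1 X :=
    fun t ht => ⟨ht.1, ht.2.1⟩
  rcases Nat.lt_or_ge X Q₀ with hlt | hge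
  · have h3 := Set.ncard_le_ncard hsub (Set.finite_Icc 1 X)
    rw [Set.ncard_eq_toFinset_card' (Set.Icc 1 X)] at h3
    simp only [Set.toFinset_Icc, Nat.card_Icc, add_tsub_cancel_right] at h3
    have h4 : ({t : ℕ | 1 ≤ t ∧ t ≤ X ∧ t.Prime ∧ ¬ LargeValues β c ε t}.ncard : ℝ) ≤ Q₀ := by
      exact_mod_cast h3.trans hlt.le
    calc _ ≤ (Q₀ : ℝ) := h4
      _ ≤ ((Q₀ : ℝ) + 1) * 1 := by linarith
      _ ≤ _ := mul_le_mul_of_nonneg_left hp1 (by positivity)
  · obtain ⟨Bad, hB1, hB2⟩ := hQ X hge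
    have hsub2 : {t : ℕ | 1 ≤ t ∧ t ≤ X ∧ t.Prime ∧ ¬ LargeValues β c ε t} ⊆ (Bad : Set ℕ) := by
      rintro q ⟨_, h5, h3, h4⟩
      by_contra hcon
      exact h4 fun hne H χ₀ hH => @hB2 q hne h3 h5 hcon H χ₀ hH
    have h3 := Set.ncard_le_ncard hsub2 (Finset.finite_toSet _)
    rw [Set.ncard_coe_finset] at h3
    calc _ ≤ (Bad.card : ℝ) := by exact_mod_cast h3
      _ ≤ (X : ℝ) ^ (1 - η) := hB1
      _ ≤ (X : ℝ) ^ (1 - min η 1 + ε') := Real.rpow_le_rpow_of_exponent_le hX1 (by
          have := min_le_left η 1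
          linarith)
      _ = 1 * (X : ℝ) ^ (1 - min η 1 + ε') := (one_mul _).symm
      _ ≤ _ := mul_le_mul_of_nonneg_right (by
          have : (0 : ℝ) ≤ Q₀ := Nat.cast_nonneg _
          linarith) (by positivity)

/-- **Large central values in every coset for the primes near the values of generic linear forms.** (1) For all
`2 / 3 < β ≤ 1` and `c, ε > 0` there is an `η` with `0 < η ≤ 1` such that the following holds. Let the family `v` of vectors in
`ℝ^k` have at most `C X ^ (τ + δ)` members of norm at most `X` for every `δ > 0` (`Fam v τ`), `τ ≥ 0`, and let `θ < 1`. For all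
`α` in `ℝ^k` outside a set `E` of Hausdorff dimension at most `k - 1 + (1 - η + τ) / (1 - θ)` and all `w`, for all but finitely
many `i`, for EVERY prime `q` with `|q - ∑ α_j v_(i,j)| ≤ w ‖v_i‖ ^ θ` every coset `χ₀ H` of every subgroup `H` with at least
`c q ^ β` elements of the group of the Dirichlet characters modulo `q` contains a character `χ` with
`|L(χ, 1/2)| ≥ exp ((√(3 β - 2) - ε) √(log q logloglog q / loglog q))`. If `θ < η - τ`, then `E` has measure zero: the
dimension is less than `k`. (2) Examples of families. -/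
theorem result :
    (∀ β : ℝ, 2 / 3 < β → β ≤ 1 → ∀ c : ℝ, 0 < c → ∀ ε : ℝ, 0 < ε → ∃ η : ℝ, 0 < η ∧ η ≤ 1 ∧
      ∀ (k : ℕ) (ι : Type) (v : ι → Fin k → ℝ) (τ θ : ℝ), 0 ≤ τ → 0 ≤ θ → θ < 1 → Fam v τ →
      ∃ E : Set (Fin k → ℝ), dimH E ≤ ENNReal.ofReal ((k : ℝ) - 1 + (1 - η + τ) / (1 - θ)) ∧
        (1 ≤ k → θ < η - τ → dimH E < (k : ENNReal) ∧ MeasureTheory.volume E = 0) ∧
        ∀ α, α ∉ E → ∀ w : ℝ,
          {i | ¬ ∀ q : ℕ, q.Prime → |(q : ℝ) - ∑ j, α j * v i j| ≤ w * ‖v i‖ ^ θ → LargeValues β c ε q}.Finite) ∧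
    (∀ d : ℕ, 1 ≤ d → Fam (fun (n : ℕ) (j : Fin (d + 1)) => (n : ℝ) ^ (j : ℕ)) (1 / d)) ∧
    (∀ (k : ℕ) (b : Fin k → ℝ), (∀ j, 1 < b j) → Fam (fun (n : Fin k → ℕ) (j : Fin k) => b j ^ n j) 0) ∧
    (∀ (k : ℕ) (a : Fin k → ℝ), (∀ j, 0 < a j) →
      Fam (fun (n : Fin k → ℕ) (j : Fin k) => (n j : ℝ) ^ a j) (∑ j, 1 / a j)) ∧
    ∀ (k : ℕ) (u : Fin k → ℕ → ℝ) (τ : Fin k → ℝ), (∀ j, Sq (u j) (τ j)) →
      Fam (fun (n : Fin k → ℕ) (j : Fin k) => u j (n j)) (∑ j, τ j) := by
  refine ⟨fun β hβ hβ1 c hc ε hε => ?_, examples⟩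
  obtain ⟨η, hη, hη1, hcount⟩ := count hβ hβ1 hc hε
  refine ⟨η, hη, hη1, fun k ι v τ θ hτ hθ0 hθ hv => ?_⟩
  obtain ⟨E, hE, hE2⟩ := linear_good_nat Nat.Prime (LargeValues β c ε) v (s := 1 - η) (sub_nonneg.2 hη1) hτ hθ hv hcount
  refine ⟨E, hE, fun hk hlt => ?_, fun α hα w => (hE2 α hα w).subset ?_⟩
  · have h1 : (1 - η + τ) / (1 - θ) < 1 := by
      rw [div_lt_one (by linarith)]
      linarith
    have hkr : (1 : ℝ) ≤ k := by exact_mod_cast hk
    have h2 : dimH E < (k : ENNReal) := by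
      refine lt_of_le_of_lt hE ?_
      rw [← ENNReal.ofReal_natCast, ENNReal.ofReal_lt_ofReal_iff (by linarith)]
      linarith
    refine ⟨h2, ?_⟩
    have h3 : dimH E < ((k : NNReal) : ENNReal) := by simpa using h2
    have h4 := hausdorffMeasure_of_dimH_lt h3
    have h5 : (MeasureTheory.Measure.hausdorffMeasure ((Fintype.card (Fin k) : ℕ) : ℝ) : MeasureTheory.Measure (Fin k → ℝ)) =
        MeasureTheory.volume := MeasureTheory.hausdorffMeasure_pi_real
    rw [← h5, Fintype.card_fin]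
    simpa using h4
  · intro i hi
    simp only [Set.mem_ofPred_eq] at hi ⊢
    intro h
    apply hi
    intro q hq hw
    exact h q hq.one_lt.le hq hw

end Pool.Agent.Results.MP_3e6494_nt.GenericLinearForms
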