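import Pool.Agent.Run7.h95.NP.Main
import Pool.Agent.Results.MP_3e6494_nt.GenericLinearForms

/-!
# Large central values in every coset for all primes near products of linear forms

Let `2 / 3 < β ≤ 1` and `c, ε > 0`. We call a prime `q` good if every coset of every subgroup with at least `c q ^ β` elements of
the group of the Dirichlet characters modulo `q` contains a character with a large central value. There is an `η > 0` such that
for all `0 ≤ θ < η`, `A ≥ 0`, `h ≥ 1` and `0 ≤ σ ≤ 1`, `σ < h (η - θ)`: for all integer vectors `x` in `[-X, X]^D` with at most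
`C Q^(h (D + 2)) X^(D - σ)` exceptions, `C` depending on `D`, EVERY prime `q` with `|q - |t|| ≤ A |t|^θ` for ANY product
`t = y_1 ⋯ y_h` of `h` linear forms, `y = M x + b` with `M` an integral matrix of rank `h` and `b` an integral vector, the
entries of `M` and `b` at most `Q`, all `y_j ≠ 0`, is good. Here `Q` can be a small power of `X`. For instance `x` can be the
pair of the sides of a rectangle, with its area and the areas of all the rectangles with sides which are small combinations of
the two sides. We prove a similar result for the integer vectors near `N_n α`, `N_n` a lacunary sequence (for instance the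
truncations of the expansions in base `g`, `N_n = g^n`), for all real vectors `α` outside a set of dimension less than `D`, and
`M`, `b` with entries up to a power of `N_n`.

The starting theorem `AlmostAllPrimes` of this problem gives all primes up to `X` but `X^(1 - η)`. The products of `h` integers
form a set of density zero, and so the result for `h ≥ 2` does not follow from this number alone: the divisor bound shows that
few vectors `y` have a product near a prime which is not good, and for each of the possible `M`, `b` the map `x ↦ M x + b` has small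
fibres (engine of helper469, `Run7/h469/Vm`, here extended to windows). The file `GenericLinearForms` is about one linear form
with real coefficients, outside a set of coefficients of small dimension.
-/

set_option autoImplicit false

namespace Pool.Agent.Results.MP_3e6494_nt.ProductsOfLinearForms

open MeasureTheory
open Run7.h469.Vk (Hits Lacunary Generic Avoids)
open Run7.h469.Vm (ProductIn)
open GenericLinearForms (LargeValues count)

/-- The integers `t` (vectors with one coordinate) with a prime `q` with `|q - |t|| ≤ A |t| ^ θ` for which some coset of some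
subgroup with at least `c q ^ β` elements contains no large central value. -/
def Bad (β c ε A θ : ℝ) : Set (Fin 1 → ℤ) :=
  {t | ∃ q : ℕ, q.Prime ∧ |(q : ℝ) - (|(t 0 : ℝ)|)| ≤ A * |(t 0 : ℝ)| ^ θ ∧ ¬ LargeValues β c ε q}

/-- **Large central values in every coset for all primes near products of linear forms.** For all `2 / 3 < β ≤ 1` and
`c, ε > 0` there is an `η` with `0 < η ≤ 1` such that for all `A ≥ 0`, `0 ≤ θ < η`, `h ≥ 1`, `0 ≤ σ ≤ 1`, `σ < h (η - θ)`:
(1) there is `C` such that for all `D` and `X, Q ≥ 1`, for all but `C ((D + 1)^h 3^((h + 1) (D + 1))) Q^(h (D + 2)) X^(D - σ)` of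
the integer vectors `x` in `[-X, X]^D` no product `t = y_1 ⋯ y_h` of the nonzero coordinates of a vector `y = M x + b`, `M`
integral of rank `h`, with entries of `M` and `b` at most `Q`, is in `Bad`: for EVERY prime `q` with `|q - |t|| ≤ A |t| ^ θ`
every coset of every subgroup with at least `c q ^ β` elements of the group of the Dirichlet characters modulo `q` contains a
character with a large central value; (2) for lacunary `N_i` and `κ ≥ 0`, outside a set of `α` in `ℝ^D` of dimension at most
`D - σ + h (D + 2) κ` (and almost everywhere for measures of larger dimension), for all `A'`, for all large `i` the same is true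
for the integer vectors `x` with `|x - N_i α| ≤ A'` and `M`, `b` with entries at most `A' N_i^κ`; (3) in particular it is true
for almost all `α`, if `h (D + 2) κ < σ`. -/
theorem result (β : ℝ) (hβ : 2 / 3 < β) (hβ1 : β ≤ 1) (c : ℝ) (hc : 0 < c) (ε : ℝ) (hε : 0 < ε) :
    ∃ η : ℝ, 0 < η ∧ η ≤ 1 ∧ ∀ A θ : ℝ, 0 ≤ A → 0 ≤ θ → θ < η → ∀ h : ℕ, 1 ≤ h →
      ∀ σ : ℝ, 0 ≤ σ → σ ≤ 1 → σ < h * (η - θ) →
      (∃ C : ℝ, ∀ D X Q : ℕ, 1 ≤ X → 1 ≤ Q →
        (({x : Fin D → ℤ | (∀ j, |x j| ≤ X) ∧ x ∈ Hits (ProductIn h (Bad β c ε A θ)) D Q}.ncard : ℕ) : ℝ) ≤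
          C * (((D : ℝ) + 1) ^ h * 3 ^ ((h + 1) * (D + 1))) * (Q : ℝ) ^ (h * (D + 2)) * (X : ℝ) ^ ((D : ℝ) - σ)) ∧
      (∀ D : ℕ, 1 ≤ D → ∀ N : ℕ → ℝ, Lacunary N → ∀ κ : ℝ, 0 ≤ κ →
        Generic ((D : ℝ) - σ + h * (D + 2) * κ) (fun α : Fin D → ℝ => Avoids (ProductIn h (Bad β c ε A θ)) N κ α)) ∧
      ∀ D : ℕ, 1 ≤ D → ∀ N : ℕ → ℝ, Lacunary N → ∀ κ : ℝ, 0 ≤ κ → h * (D + 2) * κ < σ →
        ∀ᵐ α : Fin D → ℝ, Avoids (ProductIn h (Bad β c ε A θ)) N κ α := by
  obtain ⟨η, hη, hη1, hcount⟩ := count hβ hβ1 hc hε
  refine ⟨η, hη, hη1, fun A θ hA hθ _ h hh σ hσ hσ1 hσh => ?_⟩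
  refine Run7.h95.NP.near_nat hh (s := 1 - η) (sub_nonneg.2 hη1) hθ hA hσ hσ1 (by
    have e : (1 : ℝ) - (1 - η) - θ = η - θ := by ring
    rw [e]
    exact hσh) hcount fun t ht => ?_
  obtain ⟨q, h1, h2, h3⟩ := ht
  exact ⟨q, h1.one_lt.le, ⟨h1, h3⟩, h2⟩

end Pool.Agent.Results.MP_3e6494_nt.ProductsOfLinearForms
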